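import Pool.Agent.Helper19.SQ.GoalsH

/-!
# Packet SQ-HARM (MP_bb32d1_al)
-/

set_option autoImplicit false

namespace Pool.Agent.Helper62.SQ

open Pool.Agent.Helper19.SQ

theorem ten_eq_sum {N l : ℕ} {q : ℂ} (H : A N l q →ₐ[ℂ] Mat N (A N l q)) {M : Type}
    [AddCommGroup M] (f : Ten H M) : f = ∑ j, tv H j (f j) := by
  funext i
  have h : (∑ j, tv H j (f j)) i = ∑ j, (tv H j (f j)) i := by
    exact Finset.sum_apply i Finset.univ (fun j => (tv H j (f j) : Fin (N + 1) → M))
  rw [h]
  simp [tv]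

theorem ineq (h1 : S_ZUNIV) (h3 : S_FL) (h4 : S_GENV) (h5 : S_LAYA)
    (hcup : ∀ (N l : ℕ) (q : ℂ), Par N l q → ∀ (D : Dl N l q) (a : A N l q)
      (p j : Fin (N + 1)), ∑ i, D.dl (D.ep a j i) p i = if j = p then a else 0)
    (N l : ℕ) [NeZero l] (q : ℂ) (D : Dl N l q) (hP : Par N l q)
    (hF : FiniteDimensional ℂ (A N l q)) (lam : Fin (N + 1) → ZMod l) :
    (N + 1) * dZ (N := N) q lam ≤ ∑ j, dZ q (addE lam j) := by
  obtain ⟨hfd, hsing, hspan, -⟩ := h1 N l q hP hF lam
  have hL := h5 N l q D hP (Zl q lam) lam (zgen q lam) hsing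
  have hG := h4 N l q D (fun a p j => hcup N l q hP D a p j) (Zl q lam)
  have key := (h3 N l q hP hF (Ten D.dl (Zl q lam)) (N + 1)
    (fun j => tv D.dl j (zgen q lam)) (fun j => addE lam j) (fun j k => (hL j).1 k)
    (fun j i => by
      rw [(hL j).2 i, sub_self]
      exact Submodule.zero_mem _) (by
      rw [eq_top_iff]
      intro f _
      rw [ten_eq_sum D.dl f]
      refine Submodule.sum_mem _ fun j _ => ?_
      have hj : f j ∈ Submodule.span (A N l q) {zgen q lam} := by
        rw [hspan]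
        exact Submodule.mem_top
      obtain ⟨a, ha⟩ := Submodule.mem_span_singleton.1 hj
      rw [← ha, hG a (zgen q lam) j]
      exact Submodule.sum_mem _ fun i _ => Submodule.smul_mem _ _
        (Submodule.subset_span ⟨i, rfl⟩))).1
  have hdim : Module.finrank ℂ (Ten D.dl (Zl q lam)) = (N + 1) * dZ (N := N) q lam := by
    have : Module.finrank ℂ (Fin (N + 1) → Zl q lam) = (N + 1) * dZ (N := N) q lam := by
      rw [Module.finrank_pi_fintype]
      simp [dZ]
    exact this
  rw [hdim] at key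
  exact key

theorem s_harm (h1 : S_ZUNIV) (h2 : S_FDIM) (h3 : S_FL) (h4 : S_GENV) (h5 : S_LAYA)
    (hcup : ∀ (N l : ℕ) (q : ℂ), Par N l q → ∀ (D : Dl N l q) (a : A N l q)
      (p j : Fin (N + 1)), ∑ i, D.dl (D.ep a j i) p i = if j = p then a else 0)
    (h7 : S_SV) (h8 : S_NTRIV) : S_HARM := by
  intro N l _ q D hP
  have hF := h2 N l q hP
  have hin := ineq h1 h3 h4 h5 hcup N l q D hP hF
  -- a weight with maximal dimension
  obtain ⟨lam0, hmax⟩ := Finite.exists_max (fun lam : Fin (N + 1) → ZMod l => dZ (N := N) q lam)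
  have hstep : ∀ lam : Fin (N + 1) → ZMod l, dZ (N := N) q lam = dZ q lam0 →
      ∀ j, dZ q (addE lam j) = dZ (N := N) q lam0 := by
    intro lam hlam j
    by_contra hne
    have hlt : dZ q (addE lam j) < dZ (N := N) q lam0 := lt_of_le_of_ne (hmax _) hne
    have h9 : ∑ j, dZ q (addE lam j) < ∑ _j : Fin (N + 1), dZ (N := N) q lam0 :=
      Finset.sum_lt_sum (fun i _ => hmax _) ⟨j, Finset.mem_univ _, hlt⟩
    rw [Finset.sum_const, Finset.card_univ, Fintype.card_fin, smul_eq_mul] at h9
    have h10 := hin lam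
    rw [hlam] at h10
    omega
  have hsingle : ∀ (n : ℕ) (j : Fin (N + 1)) (lam : Fin (N + 1) → ZMod l),
      dZ (N := N) q lam = dZ q lam0 → dZ (N := N) q (lam + Pi.single j (n : ZMod l)) = dZ q lam0 := by
    intro n j lam hlam
    induction n with
    | zero => simpa using hlam
    | succ n ih =>
      have e : lam + Pi.single j ((n + 1 : ℕ) : ZMod l) =
          addE (lam + Pi.single j (n : ZMod l)) j := by
        funext i
        by_cases hi : i = j
        · subst hi
          simp [addE, add_assoc]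
        · simp [addE, hi]
      rw [e]
      exact hstep _ ih j
  have hadd : ∀ (v : Fin (N + 1) → ZMod l) (s : Finset (Fin (N + 1))),
      dZ (N := N) q (lam0 + ∑ j ∈ s, Pi.single j (v j)) = dZ q lam0 := by
    intro v s
    induction s using Finset.induction_on with
    | empty => simp
    | insert j s hj ih =>
      have e2 : lam0 + ∑ x ∈ insert j s, Pi.single x (v x) =
          (lam0 + ∑ x ∈ s, Pi.single x (v x)) + Pi.single j (((v j).val : ℕ) : ZMod l) := by
        rw [Finset.sum_insert hj, ZMod.natCast_zmod_val]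
        abel
      rw [e2]
      exact hsingle _ j _ ih
  have hall : ∀ lam : Fin (N + 1) → ZMod l, dZ (N := N) q lam = dZ q lam0 := by
    intro lam
    have h9 := hadd (lam - lam0) Finset.univ
    rw [Finset.univ_sum_single, add_sub_cancel] at h9
    exact h9
  refine ⟨fun lam lam' => (hall lam).trans (hall lam').symm, fun lam => ?_⟩
  have := h8 N l q hP
  obtain ⟨lam1, m, hm, hs⟩ := h7 N l q hP (A N l q) (exists_ne 0)
  obtain ⟨hfd, -, -, hu⟩ := h1 N l q hP hF lam1
  obtain ⟨f, hf⟩ := hu (A N l q) m hs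
  have hnt : Nontrivial (Zl q lam1) := ⟨zgen q lam1, 0, fun h => hm (by
    rw [← hf, h, map_zero])⟩
  have hpos : 0 < dZ (N := N) q lam1 := Module.finrank_pos
  rw [(hall lam).trans (hall lam1).symm]
  exact hpos

end Pool.Agent.Helper62.SQ
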