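import Pool.Agent.Helper41.SQ.GoalsN

/-!
# Packet SQN-DPV (MP_bb32d1_al)
-/

set_option autoImplicit false

namespace Pool.Agent.Helper62.SQN

open Matrix Pool.Agent.Helper19.SQ Pool.Agent.Helper34.SQ Pool.Agent.Helper41.SQ

section

variable {A : Type} [Ring A] [Algebra ℂ A] {κ : Type} [Fintype κ] [DecidableEq κ]
  {H Hs : A →ₐ[ℂ] Matrix κ κ A}

theorem cap_mul (h : IsDP H Hs) (y b : A) (P I : κ) :
    y * Hs b P I = ∑ P', Hs (H y P' P * b) P' I := by
  have h1 : ∀ P', Hs (H y P' P * b) P' I = ∑ R, Hs (H y P' P) P' R * Hs b R I := by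
    intro P'
    rw [map_mul, Matrix.mul_apply]
  simp only [h1]
  rw [Finset.sum_comm]
  simp only [← Finset.sum_mul, h.cap]
  simp

theorem part1 (h : IsDP H Hs) {Z : Matrix κ κ A} (hZ : ∀ a, Z * H a = H a * Z) (a : A) :
    vv Hs Z * Hs a = Hs a * vv Hs Z := by
  ext Q I
  have hL : (vv Hs Z * Hs a) Q I = ∑ P, Hs (Z P Q * a) P I := by
    rw [Matrix.mul_apply]
    simp only [vv_apply, map_mul, Matrix.mul_apply, Finset.sum_mul]
    exact Finset.sum_comm
  have hR : (Hs a * vv Hs Z) Q I = ∑ J, ∑ P', Hs ((H (Hs a Q J) * Z) P' J) P' I := by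
    rw [Matrix.mul_apply]
    refine Finset.sum_congr rfl fun J _ => ?_
    rw [vv_apply, Finset.mul_sum]
    simp only [cap_mul h (Hs a Q J)]
    rw [Finset.sum_comm]
    refine Finset.sum_congr rfl fun P' _ => ?_
    rw [Matrix.mul_apply, map_sum, Matrix.sum_apply]
  rw [hL, hR]
  have h2 : ∀ P', ∑ J, Hs ((H (Hs a Q J) * Z) P' J) P' I = Hs (Z P' Q * a) P' I := by
    intro P'
    have h3 : ∀ J, (H (Hs a Q J) * Z) P' J = ∑ R, Z P' R * H (Hs a Q J) R J := by
      intro J
      rw [← hZ, Matrix.mul_apply]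
    simp only [h3]
    have h4 : ∑ J, Hs (∑ R, Z P' R * H (Hs a Q J) R J) P' I =
        (Hs (∑ J, ∑ R, Z P' R * H (Hs a Q J) R J)) P' I := by
      rw [map_sum, Matrix.sum_apply]
    rw [h4, Finset.sum_comm]
    simp only [← Finset.mul_sum, h.cup]
    simp
  rw [Finset.sum_comm]
  exact (Finset.sum_congr rfl fun P' _ => h2 P').symm

theorem part2 (h : IsDP H Hs) {Z : Matrix κ κ A} (hZ : ∀ a, Z * H a = H a * Z)
    (Z' : Matrix κ κ A) : vv Hs (Z * Z') = vv Hs Z' * vv Hs Z := by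
  ext K I
  have h1 : vv Hs (Z * Z') K I = ∑ Q, (vv Hs Z * Hs (Z' Q K)) Q I := by
    rw [vv_apply]
    have h2 : ∀ P, Hs ((Z * Z') P K) P I = ∑ Q, ∑ J, Hs (Z P Q) P J * Hs (Z' Q K) J I := by
      intro P
      rw [Matrix.mul_apply, map_sum, Matrix.sum_apply]
      refine Finset.sum_congr rfl fun Q _ => ?_
      rw [map_mul, Matrix.mul_apply]
    simp only [h2]
    rw [Finset.sum_comm]
    refine Finset.sum_congr rfl fun Q _ => ?_
    rw [Matrix.mul_apply, Finset.sum_comm]
    refine Finset.sum_congr rfl fun J _ => ?_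
    rw [vv_apply, Finset.sum_mul]
  rw [h1]
  simp only [part1 h hZ]
  rw [Matrix.mul_apply]
  have h3 : ∀ Q, (Hs (Z' Q K) * vv Hs Z) Q I = ∑ J, Hs (Z' Q K) Q J * vv Hs Z J I :=
    fun Q => Matrix.mul_apply
  simp only [h3]
  rw [Finset.sum_comm]
  refine Finset.sum_congr rfl fun J _ => ?_
  rw [vv_apply Hs Z' K J, Finset.sum_mul]

end

theorem n_dpv : S_DPV := by
  intro A _ _ κ _ _ H Hs h
  refine ⟨fun Z hZ a => part1 h hZ a, fun Z hZ Z' => part2 h hZ Z', ?_, fun M => ?_⟩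
  · ext K I
    rw [vv_apply]
    have h1 : ∀ P, Hs ((1 : Matrix κ κ A) P K) P I =
        if P = K then (1 : Matrix κ κ A) K I else 0 := by
      intro P
      rw [Matrix.one_apply]
      by_cases hP : P = K
      · rw [if_pos hP, if_pos hP, map_one, hP]
      · rw [if_neg hP, if_neg hP, map_zero]
        rfl
    simp only [h1]
    simp
  · ext K I
    rw [vv_apply]
    have h1 : ∀ P, Hs ((sc A M) P K) P I = if P = I then algebraMap ℂ A (M I K) else 0 := by
      intro P
      have h2 : (sc A M) P K = algebraMap ℂ A (M P K) := rfl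
      rw [h2, AlgHom.commutes, Matrix.algebraMap_matrix_apply]
      by_cases hP : P = I
      · rw [if_pos hP, if_pos hP, hP]
      · rw [if_neg hP, if_neg hP]
    simp only [h1]
    simp only [Finset.sum_ite_eq', Finset.mem_univ, if_true]
    rfl

end Pool.Agent.Helper62.SQN
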