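import Pool.Agent.Helper39.SQ.Goals

/-!
# MP_9b2a83_an: packet SQ-CONFIG
-/

set_option autoImplicit false

namespace Pool.Agent.Helper62.SQ.CONFIG

open Pool.Agent.Helper39.SQ Pool.Agent.Helper71.SN Pool.Agent.Helper39.Net

theorem maps_card (d D N : ℕ) : Fintype.card (Mp d D N) = 2 ^ (D * d * 2 ^ N) := by
  simp only [Mp, Fintype.card_fun, Fintype.card_fin]
  rw [← pow_mul, ← pow_mul, mul_assoc]

/-- Averaging. -/
theorem average {α : Type} [Fintype α] [DecidableEq α] (X : α → ℕ) (Bad : Finset α)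
    (T Y N2 C4 : ℕ) (hT0 : 0 < T) (hT : Fintype.card α = T) (hX : ∀ F, X F ≤ N2)
    (hY : 1 ≤ Y)
    (hBad : Bad.card * (N2 * (64 * C4)) ≤ T) (hE : T * Y ≤ 6 * C4 * ∑ F, X F) :
    ∃ F, F ∉ Bad ∧ Y ≤ 12 * C4 * X F := by
  by_contra hcon
  push Not at hcon
  have h1 : ∑ F, X F = ∑ F ∈ Badᶜ, X F + ∑ F ∈ Bad, X F := by
    rw [add_comm]
    exact (Finset.sum_add_sum_compl Bad X).symm
  have h2 : (64 * C4) * ∑ F ∈ Bad, X F ≤ T := by
    calc (64 * C4) * ∑ F ∈ Bad, X F ≤ (64 * C4) * ∑ _F ∈ Bad, N2 :=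
          Nat.mul_le_mul_left _ (Finset.sum_le_sum fun F _ => hX F)
      _ = Bad.card * (N2 * (64 * C4)) := by rw [Finset.sum_const, smul_eq_mul]; ring
      _ ≤ T := hBad
  have h3 : 12 * C4 * ∑ F ∈ Badᶜ, X F ≤ T * Y := by
    rw [Finset.mul_sum]
    calc ∑ F ∈ Badᶜ, 12 * C4 * X F ≤ ∑ _F ∈ Badᶜ, Y :=
          Finset.sum_le_sum fun F hF => (hcon F (Finset.mem_compl.1 hF)).le
      _ = (Badᶜ).card * Y := by rw [Finset.sum_const, smul_eq_mul]
      _ ≤ T * Y := by
          refine Nat.mul_le_mul_right _ ?_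
          rw [← hT]
          exact Finset.card_le_univ _
  set A := ∑ F ∈ Badᶜ, X F
  set B := ∑ F ∈ Bad, X F
  have h4 : T * Y ≤ 6 * C4 * A + 6 * C4 * B := by
    rw [h1] at hE
    calc T * Y ≤ 6 * C4 * (A + B) := hE
      _ = 6 * C4 * A + 6 * C4 * B := by ring
  have e1 : 12 * C4 * A = 2 * (6 * C4 * A) := by ring
  have h5 : 10 * (6 * C4 * B) ≤ T := by
    calc 10 * (6 * C4 * B) = 60 * (C4 * B) := by ring
      _ ≤ 64 * (C4 * B) := Nat.mul_le_mul_right _ (by norm_num)
      _ = (64 * C4) * B := by ring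
      _ ≤ T := h2
  have h6 : T ≤ T * Y := Nat.le_mul_of_pos_right _ hY
  have h7 : 0 < T * Y := lt_of_lt_of_le hT0 h6
  omega

open Classical in
/-- A good map gives a configuration. -/
theorem config_of {d D N h K : ℕ} (hd : 1 ≤ d) (F : Mp d D N)
    (hF : ∀ s : Fin d → Fin (2 ^ D), (Finset.univ.filter fun k : Fin (2 ^ N) =>
      N + h ≤ ∑ c, agr 2 D (F k c) (s c)).card < K) :
    ∃ (M : Finset (Pt d)) (P : Finset (Pt d × Pt d)), M.card ≤ 2 ^ N ∧
      Cfg d D N h K M P ∧
      P.card = (Finset.univ.filter fun q : Fin (2 ^ N) × Fin (2 ^ N) => Gd F q.1 q.2).card := by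
  set va : Fin (2 ^ N) → Pt d := fun k c => (F k c).val with hva
  have hlt : ∀ i j, Gd F i j → va i ≠ va j := by
    intro i j h heq
    have h1 := h.1 ⟨0, by omega⟩
    have h2 := congrFun heq ⟨0, by omega⟩
    simp only [hva] at h2
    omega
  refine ⟨Finset.univ.image va, (Finset.univ.filter fun q : Fin (2 ^ N) × Fin (2 ^ N) =>
    Gd F q.1 q.2).image (fun q => (va q.1, va q.2)), ?_, ?_, ?_⟩
  · exact Finset.card_image_le.trans (by simp)
  · refine ⟨?_, ?_, ?_, ?_, ?_, ?_, ?_⟩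
    · intro x hx c
      obtain ⟨k, _, rfl⟩ := Finset.mem_image.1 hx
      exact (F k c).isLt
    · intro p hp
      obtain ⟨q, hq, rfl⟩ := Finset.mem_image.1 hp
      exact Finset.mem_image_of_mem _ (Finset.mem_univ _)
    · intro p hp
      obtain ⟨q, hq, rfl⟩ := Finset.mem_image.1 hp
      exact Finset.mem_image_of_mem _ (Finset.mem_univ _)
    · intro p hp c
      obtain ⟨q, hq, rfl⟩ := Finset.mem_image.1 hp
      exact (Finset.mem_filter.1 hq).2.1 c
    · intro p hp
      obtain ⟨q, hq, rfl⟩ := Finset.mem_image.1 hp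
      exact (Finset.mem_filter.1 hq).2.2.1
    · intro p hp z hz h
      obtain ⟨q, hq, rfl⟩ := Finset.mem_image.1 hp
      obtain ⟨k, _, rfl⟩ := Finset.mem_image.1 hz
      rcases (Finset.mem_filter.1 hq).2.2.2 k h with h1 | h1
      · left
        rw [h1]
      · right
        rw [h1]
    · intro s hs
      refine lt_of_le_of_lt ?_ (hF (fun c => ⟨s c, hs c⟩))
      refine le_trans (Finset.card_le_card ?_) (Finset.card_image_le (f := va))
      intro x hx
      obtain ⟨hx1, hx2⟩ := Finset.mem_filter.1 hx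
      obtain ⟨k, _, rfl⟩ := Finset.mem_image.1 hx1
      exact Finset.mem_image.2 ⟨k, Finset.mem_filter.2 ⟨Finset.mem_univ _, hx2⟩, rfl⟩
  · refine Finset.card_image_of_injOn ?_
    rintro ⟨i, j⟩ hq ⟨i', j'⟩ hq' heq
    have h1 : Gd F i j := (Finset.mem_filter.1 hq).2
    have h2 : Gd F i' j' := (Finset.mem_filter.1 hq').2
    obtain ⟨e1, e2⟩ := Prod.mk.inj heq
    simp only at e1 e2
    have g1 : i' = i := by
      rcases h1.2.2 i' (fun c => by
        have h3 : (F i' c).val = (F i c).val := (congrFun e1 c).symm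
        rw [h3, agr_self]
        exact agr_le _ _ _ _) with h3 | h3
      · exact h3
      · exact absurd (by rw [e1, h3] : va i = va j) (hlt i j h1)
    have g2 : j' = j := by
      rcases h1.2.2 j' (fun c => by
        have h3 : (F j' c).val = (F j c).val := (congrFun e2 c).symm
        rw [h3]) with h3 | h3
      · exact absurd (by rw [e2, h3] : va j = va i).symm (hlt i j h1)
      · exact h3
    rw [g1, g2]

theorem thm : Pool.Agent.Helper39.SQ.G_EXPB → Pool.Agent.Helper39.SQ.G_BAD →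
    Pool.Agent.Helper39.SQ.G_CONFIG := by
  classical
  intro hE hB d D N h K hd hD hN hND hns hK
  have h1 := hE d D N hD hN
  have h2 := hB d D N h K hND hK
  set X : Mp d D N → ℕ := fun F => (Finset.univ.filter fun q : Fin (2 ^ N) × Fin (2 ^ N) =>
      Gd F q.1 q.2).card with hX
  have e4 : 2 ^ (2 * d + 6) = 64 * 4 ^ d := by
    rw [pow_add, pow_mul]
    norm_num
    ring
  obtain ⟨F, hF1, hF2⟩ := average X (Finset.univ.filter fun F : Mp d D N =>
      ∃ s : Fin d → Fin (2 ^ D), K ≤ (Finset.univ.filter fun k : Fin (2 ^ N) =>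
      N + h ≤ ∑ c, agr 2 D (F k c) (s c)).card) (2 ^ (D * d * 2 ^ N))
      (2 ^ N * nshp d D N) (2 ^ (2 * N)) (4 ^ d) (by positivity)
      (maps_card d D N) (fun F => by
        refine (Finset.card_le_univ _).trans ?_
        rw [Fintype.card_prod, Fintype.card_fin, two_mul, pow_add])
      (Nat.one_le_iff_ne_zero.2 (by positivity)) (by
        rw [← e4]
        convert h2) (by convert h1)
  rw [Finset.mem_filter] at hF1
  push Not at hF1
  obtain ⟨M, P, hM, hC, hP⟩ := config_of (K := K) (h := h) hd F (fun s =>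
    hF1 (Finset.mem_univ _) s)
  refine ⟨M, P, hM, hC, ?_⟩
  rw [hP]
  exact hF2

end Pool.Agent.Helper62.SQ.CONFIG
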