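import Pool.Agent.Helper4.SQ.GoalsR
import Pool.Agent.Helper64.SQ.SD

/-!
Helper62, packet SQR-SCD (12212) of helper4: the crossing commutes with the action on `V (x) V`.
-/

set_option autoImplicit false
set_option linter.unusedSimpArgs false

namespace Pool.Agent.Helper62.SQ

open Pool.Agent.Helper19.SQ Pool.Agent.Helper34.SQ Pool.Agent.Helper4.SQ Pool.Agent.Helper64.SQ
  Matrix

noncomputable section

/-- numbers of `E_k` on `V (x) V`. -/
def EEm (N : ℕ) (q : ℂ) (k : ℕ) :
    Matrix (Fin (N + 1) × Fin (N + 1)) (Fin (N + 1) × Fin (N + 1)) ℂ := Matrix.of fun x y =>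
  (if (x.1 : ℕ) = y.1 ∧ (x.2 : ℕ) = k ∧ (y.2 : ℕ) = k + 1 then q ^ pr x.1 k else 0)
    + (if (x.1 : ℕ) = k ∧ (y.1 : ℕ) = k + 1 ∧ (x.2 : ℕ) = y.2 then 1 else 0)

/-- numbers of `F_k` on `V (x) V`. -/
def FFm (N : ℕ) (q : ℂ) (k : ℕ) :
    Matrix (Fin (N + 1) × Fin (N + 1)) (Fin (N + 1) × Fin (N + 1)) ℂ := Matrix.of fun x y =>
  (if (x.1 : ℕ) = y.1 ∧ (x.2 : ℕ) = k + 1 ∧ (y.2 : ℕ) = k then 1 else 0)
    + (if (x.1 : ℕ) = k + 1 ∧ (y.1 : ℕ) = k ∧ (x.2 : ℕ) = y.2 then q ^ (-pr x.2 k) else 0)

theorem keyE {q : ℂ} (hq : q ≠ 0) (a b c d k : ℕ) :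
    (if a = b then q else 1) * ((if b = c ∧ a = k ∧ d = k + 1 then q ^ pr b k else 0)
        + (if b = k ∧ c = k + 1 ∧ a = d then 1 else 0))
      + (if a < b then q - q⁻¹ else 0) * ((if a = c ∧ b = k ∧ d = k + 1 then q ^ pr a k else 0)
        + (if a = k ∧ c = k + 1 ∧ b = d then 1 else 0))
    = ((if a = d ∧ b = k ∧ c = k + 1 then q ^ pr a k else 0)
        + (if a = k ∧ d = k + 1 ∧ b = c then 1 else 0)) * (if c = d then q else 1)
      + ((if a = c ∧ b = k ∧ d = k + 1 then q ^ pr a k else 0)
        + (if a = k ∧ c = k + 1 ∧ b = d then 1 else 0)) * (if c < d then q - q⁻¹ else 0) := by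
  by_cases h1 : b = c ∧ a = k ∧ d = k + 1
  · obtain ⟨rfl, rfl, rfl⟩ := h1
    rcases lt_trichotomy b a with h | h | h
    · have e1 : ¬ a = b := by omega
      have e2 : ¬ b = a := by omega
      have e3 : ¬ b = a + 1 := by omega
      have e4 : ¬ a < b := by omega
      have e5 : b < a + 1 := by omega
      have e6 : ¬ a = a + 1 := by omega
      simp [e1, e2, e3, e4, e5, e6, pr]
    · subst h
      have e1 : ¬ b = b + 1 := by omega
      simp [e1, pr]
      field_simp
      try ring
    · by_cases h' : b = a + 1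
      · subst h'
        have e1 : ¬ a = a + 1 := by omega
        simp [e1, pr]
      · have e1 : ¬ a = b := by omega
        have e2 : ¬ b = a := by omega
        have e5 : ¬ b < a + 1 := by omega
        have e6 : ¬ a = a + 1 := by omega
        simp [e1, e2, h', h, e5, e6, pr]
  · by_cases h2 : b = k ∧ c = k + 1 ∧ a = d
    · obtain ⟨rfl, rfl, rfl⟩ := h2
      rcases lt_trichotomy a b with h | h | h
      · have e1 : ¬ a = b := by omega
        have e2 : ¬ b = a := by omega
        have e3 : ¬ a = b + 1 := by omega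
        have e4 : ¬ b + 1 = a := by omega
        have e5 : ¬ b + 1 < a := by omega
        have e6 : ¬ b = b + 1 := by omega
        simp [e1, e2, e3, e4, e5, e6, h, pr]
      · subst h
        have e1 : ¬ a = a + 1 := by omega
        simp [e1, pr]
      · by_cases h' : a = b + 1
        · subst h'
          have e1 : ¬ b = b + 1 := by omega
          have e2 : ¬ b + 1 = b := by omega
          simp [e1, pr, hq]
        · have e1 : ¬ a = b := by omega
          have e2 : ¬ b = a := by omega
          have e4 : ¬ b + 1 = a := by omega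
          have e5 : b + 1 < a := by omega
          have e6 : ¬ b = b + 1 := by omega
          have e7 : ¬ a < b := by omega
          simp [e1, e2, h', e4, e5, e6, e7, pr]
    · by_cases h3 : a = c ∧ b = k ∧ d = k + 1
      · obtain ⟨rfl, rfl, rfl⟩ := h3
        have e1 : ¬ a = b := by
          intro h; exact h1 ⟨h.symm, h, rfl⟩
        have e2 : ¬ b = a := fun h => e1 h.symm
        have e3 : ¬ b = b + 1 := by omega
        have e4 : ¬ a = b + 1 := fun h => h2 ⟨rfl, h, h⟩
        by_cases h : a < b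
        · have e5 : a < b + 1 := by omega
          simp [e1, e2, e3, e4, h, e5]
          ring
        · have e5 : ¬ a < b + 1 := by omega
          simp [e1, e2, e3, e4, h, e5]
      · by_cases h4 : a = k ∧ c = k + 1 ∧ b = d
        · obtain ⟨rfl, rfl, rfl⟩ := h4
          have e1 : ¬ b = a + 1 := by
            intro h; exact h1 ⟨h, rfl, h⟩
          have e2 : ¬ a + 1 = b := fun h => e1 h.symm
          have e3 : ¬ a = a + 1 := by omega
          have e4 : ¬ b = a := fun h => h2 ⟨h, rfl, h.symm⟩
          have e6 : ¬ a = b := fun h => e4 h.symm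
          by_cases h : a < b
          · have e5 : a + 1 < b := by omega
            simp [e1, e2, e3, e4, e6, h, e5]
          · have e5 : ¬ a + 1 < b := by omega
            simp [e1, e2, e3, e4, e6, h, e5]
        · have h5 : ¬ (a = d ∧ b = k ∧ c = k + 1) := fun h => h2 ⟨h.2.1, h.2.2, h.1⟩
          have h6 : ¬ (a = k ∧ d = k + 1 ∧ b = c) := fun h => h1 ⟨h.2.2, h.1, h.2.1⟩
          rw [if_neg h1, if_neg h2, if_neg h3, if_neg h4, if_neg h5, if_neg h6]
          ring

theorem keyF {q : ℂ} (hq : q ≠ 0) (a b c d k : ℕ) :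
    (if a = b then q else 1) * ((if b = c ∧ a = k + 1 ∧ d = k then 1 else 0)
        + (if b = k + 1 ∧ c = k ∧ a = d then q ^ (-pr a k) else 0))
      + (if a < b then q - q⁻¹ else 0) * ((if a = c ∧ b = k + 1 ∧ d = k then 1 else 0)
        + (if a = k + 1 ∧ c = k ∧ b = d then q ^ (-pr b k) else 0))
    = ((if a = d ∧ b = k + 1 ∧ c = k then 1 else 0)
        + (if a = k + 1 ∧ d = k ∧ b = c then q ^ (-pr b k) else 0)) * (if c = d then q else 1)
      + ((if a = c ∧ b = k + 1 ∧ d = k then 1 else 0)
        + (if a = k + 1 ∧ c = k ∧ b = d then q ^ (-pr b k) else 0))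
          * (if c < d then q - q⁻¹ else 0) := by
  by_cases h1 : b = c ∧ a = k + 1 ∧ d = k
  · obtain ⟨rfl, rfl, rfl⟩ := h1
    rcases lt_trichotomy b d with h | h | h
    · have e1 : ¬ d + 1 = b := by omega
      have e2 : ¬ b = d := by omega
      have e3 : ¬ b = d + 1 := by omega
      have e4 : ¬ d + 1 < b := by omega
      have e5 : ¬ d + 1 = d := by omega
      simp [e1, e2, e3, e4, pr]
    · subst h
      have e1 : ¬ b = b + 1 := by omega
      have e2 : ¬ b + 1 = b := by omega
      simp [e1, pr, hq]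
    · by_cases h' : b = d + 1
      · subst h'
        have e1 : ¬ d = d + 1 := by omega
        have e2 : ¬ d + 1 = d := by omega
        have e3 : ¬ d + 1 < d := by omega
        simp [e1, e3, pr]
      · have e1 : ¬ d + 1 = b := by omega
        have e2 : ¬ b = d := by omega
        have e5 : d + 1 < b := by omega
        have e6 : ¬ b < d := by omega
        simp [e1, e2, h', e5, e6, pr]
  · by_cases h2 : b = k + 1 ∧ c = k ∧ a = d
    · obtain ⟨rfl, rfl, rfl⟩ := h2
      rcases lt_trichotomy a c with h | h | h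
      · have e1 : ¬ a = c := by omega
        have e2 : ¬ c = a := by omega
        have e3 : ¬ a = c + 1 := by omega
        have e5 : ¬ c < a := by omega
        have e6 : a < c + 1 := by omega
        simp [e1, e2, e3, e5, e6, pr]
      · subst h
        have e1 : ¬ a = a + 1 := by omega
        simp [e1, pr]
      · by_cases h' : a = c + 1
        · subst h'
          have e1 : ¬ c = c + 1 := by omega
          have e2 : ¬ c + 1 = c := by omega
          simp [e1, pr]
          field_simp
          ring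
        · have e1 : ¬ a = c := by omega
          have e2 : ¬ c = a := by omega
          have e5 : ¬ a < c + 1 := by omega
          simp [e1, e2, h', e5, h, pr]
    · by_cases h3 : a = c ∧ b = k + 1 ∧ d = k
      · obtain ⟨rfl, rfl, rfl⟩ := h3
        have e1 : ¬ a = d + 1 := by
          intro h; exact h1 ⟨h.symm, h, rfl⟩
        have e2 : ¬ d + 1 = a := fun h => e1 h.symm
        have e4 : ¬ a = d := by
          intro h; exact h2 ⟨rfl, h, h⟩
        by_cases h : a < d
        · have e5 : a < d + 1 := by omega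
          simp [e1, e2, e4, h, e5]
        · have e5 : ¬ a < d + 1 := by omega
          simp [e1, e2, e4, h, e5]
      · by_cases h4 : a = k + 1 ∧ c = k ∧ b = d
        · obtain ⟨rfl, rfl, rfl⟩ := h4
          have e1 : ¬ b = c := by
            intro h; exact h1 ⟨h, rfl, h⟩
          have e2 : ¬ c = b := fun h => e1 h.symm
          have e3 : ¬ b = c + 1 := by
            intro h; exact h2 ⟨h, rfl, h.symm⟩
          have e4 : ¬ c + 1 = b := fun h => e3 h.symm
          by_cases h : c < b
          · have e5 : c + 1 < b := by omega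
            simp [e1, e2, e3, e4, h, e5]
            ring
          · have e5 : ¬ c + 1 < b := by omega
            simp [e1, e2, e3, e4, h, e5]
        · have h5 : ¬ (a = d ∧ b = k + 1 ∧ c = k) := fun h => h2 ⟨h.2.1, h.2.2, h.1⟩
          have h6 : ¬ (a = k + 1 ∧ d = k ∧ b = c) := fun h => h1 ⟨h.2.2, h.1, h.2.1⟩
          rw [if_neg h1, if_neg h2, if_neg h3, if_neg h4, if_neg h5, if_neg h6]
          ring

theorem Scm_mul (N : ℕ) (q : ℂ)
    (M : Matrix (Fin (N + 1) × Fin (N + 1)) (Fin (N + 1) × Fin (N + 1)) ℂ)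
    (x z : Fin (N + 1) × Fin (N + 1)) :
    (Scm N q * M) x z = (if x.1 = x.2 then q else 1) * M (x.2, x.1) z
      + (if x.1 < x.2 then q - q⁻¹ else 0) * M x z := by
  rw [Matrix.mul_apply]
  simp only [Scm, Matrix.of_apply, add_mul, Finset.sum_add_distrib]
  congr 1
  · rw [Finset.sum_eq_single (x.2, x.1)]
    · simp only [and_self, if_true]
      by_cases h : x.1 = x.2
      · rw [if_pos h, if_pos h.symm]
      · rw [if_neg h, if_neg (fun e => h e.symm)]
    · intro y _ hy
      rw [if_neg, zero_mul]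
      rintro ⟨h1, h2⟩
      exact hy (Prod.ext h2.symm h1.symm)
    · intro h; exact absurd (Finset.mem_univ _) h
  · rw [Finset.sum_eq_single x]
    · simp only [true_and]
    · intro y _ hy
      rw [if_neg, zero_mul]
      rintro ⟨h1, _⟩
      exact hy h1.symm
    · intro h; exact absurd (Finset.mem_univ _) h

theorem mul_Scm (N : ℕ) (q : ℂ)
    (M : Matrix (Fin (N + 1) × Fin (N + 1)) (Fin (N + 1) × Fin (N + 1)) ℂ)
    (x z : Fin (N + 1) × Fin (N + 1)) :
    (M * Scm N q) x z = M x (z.2, z.1) * (if z.1 = z.2 then q else 1)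
      + M x z * (if z.1 < z.2 then q - q⁻¹ else 0) := by
  rw [Matrix.mul_apply]
  simp only [Scm, Matrix.of_apply, mul_add, Finset.sum_add_distrib]
  congr 1
  · rw [Finset.sum_eq_single (z.2, z.1)]
    · simp only [and_self, if_true]
    · intro y _ hy
      rw [if_neg, mul_zero]
      rintro ⟨h1, h2⟩
      exact hy (Prod.ext h1 h2)
    · intro h; exact absurd (Finset.mem_univ _) h
  · rw [Finset.sum_eq_single z]
    · simp only [true_and]
    · intro y _ hy
      rw [if_neg, mul_zero]
      rintro ⟨h1, _⟩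
      exact hy h1
    · intro h; exact absurd (Finset.mem_univ _) h

theorem comm_E {q : ℂ} (hq : q ≠ 0) (N k : ℕ) : Scm N q * EEm N q k = EEm N q k * Scm N q := by
  ext x z
  rw [Scm_mul, mul_Scm]
  simp only [EEm, Matrix.of_apply, Fin.ext_iff, Fin.lt_def]
  exact keyE hq _ _ _ _ k

theorem comm_F {q : ℂ} (hq : q ≠ 0) (N k : ℕ) : Scm N q * FFm N q k = FFm N q k * Scm N q := by
  ext x z
  rw [Scm_mul, mul_Scm]
  simp only [FFm, Matrix.of_apply, Fin.ext_iff, Fin.lt_def]
  exact keyF hq _ _ _ _ k

theorem Scm_ne {N : ℕ} {q : ℂ} {x y : Fin (N + 1) × Fin (N + 1)} (h : Scm N q x y ≠ 0) :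
    x = y ∨ (x.1 = y.2 ∧ x.2 = y.1) := by
  by_contra hc
  push Not at hc
  apply h
  simp only [Scm, Matrix.of_apply]
  rw [if_neg (fun e => hc.2 e.1 e.2), if_neg (fun e => hc.1 e.1), add_zero]

theorem Scm_diag {N : ℕ} {q : ℂ} (f : Fin (N + 1) → ℤ) :
    Scm N q * Matrix.diagonal (fun y => q ^ (f y.1 + f y.2))
      = Matrix.diagonal (fun y => q ^ (f y.1 + f y.2)) * Scm N q := by
  apply Pool.Agent.Helper64.SQ.diag_comm
  intro x y h
  rcases Scm_ne h with h1 | ⟨h1, h2⟩
  · rw [h1]
  · rw [h1, h2, add_comm]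

variable {N l : ℕ} {q : ℂ}

theorem D3_E (hq : q ≠ 0) (D : Dl N l q) (k : ℕ) :
    Phi D.dl (D.dl (gE N l q k)) = sg (EEm N q k) (1 : A N l q)
      + sg (Matrix.diagonal fun y : Fin (N + 1) × Fin (N + 1) => q ^ (pr y.1 k + pr y.2 k))
        (gE N l q k) := by
  ext x y
  rw [Phi_apply, D.dl_E, dE, Matrix.of_apply, map_add, Matrix.add_apply,
    Matrix.add_apply, sg, Matrix.of_apply, sg, Matrix.of_apply, EEm, Matrix.of_apply,
    Matrix.diagonal_apply]
  simp only [pair_eq x y, ← Fin.ext_iff]
  by_cases h1 : x.1 = y.1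
  · have h2 : ¬ ((x.1 : ℕ) = k ∧ (y.1 : ℕ) = k + 1) := by
      rw [h1]; omega
    have h2' : ¬ ((x.1 : ℕ) = k ∧ (y.1 : ℕ) = k + 1 ∧ x.2 = y.2) := fun h => h2 ⟨h.1, h.2.1⟩
    by_cases h3 : x.2 = y.2
    · have h4 : ¬ ((x.2 : ℕ) = k ∧ (y.2 : ℕ) = k + 1) := by
        rw [h3]; omega
      simp only [eq_true h1, eq_false h2, eq_false h2', eq_true h3, eq_false h4, if_true, if_false,
        and_false, map_zero, Matrix.zero_apply, add_zero, zero_smul, zero_add, map_smul,
        D.dl_E, dE, Matrix.smul_apply, Matrix.of_apply, smul_smul, true_and, and_true]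
      rw [← zpow_add₀ hq]
    · by_cases h4 : (x.2 : ℕ) = k ∧ (y.2 : ℕ) = k + 1
      · simp only [eq_true h1, eq_false h2, eq_false h2', eq_false h3, eq_true h4, if_true, if_false,
          and_false, map_zero, Matrix.zero_apply, add_zero, zero_smul, zero_add, map_smul,
          D.dl_E, dE, Matrix.smul_apply, Matrix.of_apply, true_and, and_true]
      · simp only [eq_true h1, eq_false h2, eq_false h2', eq_false h3, eq_false h4, if_true,
          if_false, and_false, map_zero, Matrix.zero_apply, add_zero, zero_smul, map_smul,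
          D.dl_E, dE, Matrix.smul_apply, Matrix.of_apply, smul_zero, true_and]
  · by_cases h2 : (x.1 : ℕ) = k ∧ (y.1 : ℕ) = k + 1
    · obtain ⟨h2a, h2b⟩ := h2
      by_cases h3 : x.2 = y.2
      · simp only [eq_false h1, eq_true h2a, eq_true h2b, eq_true h3, if_true, if_false, and_true,
          false_and, map_zero, Matrix.zero_apply, add_zero, zero_smul, zero_add, map_one,
          Matrix.one_apply, one_smul, and_self]
      · simp only [eq_false h1, eq_true h2a, eq_true h2b, eq_false h3, if_true, if_false,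
          false_and, and_false, map_zero, Matrix.zero_apply, add_zero, zero_smul,
          map_one, Matrix.one_apply, and_self]
    · have h2' : ¬ ((x.1 : ℕ) = k ∧ (y.1 : ℕ) = k + 1 ∧ x.2 = y.2) := fun h => h2 ⟨h.1, h.2.1⟩
      simp only [eq_false h1, eq_false h2, eq_false h2', if_false,
          false_and, map_zero, Matrix.zero_apply, add_zero, zero_smul]

theorem D3_F (hP : Par N l q) (D : Dl N l q) (k : ℕ) :
    Phi D.dl (D.dl (gF N l q k)) = sg 1 (gF N l q k)
      + sg (FFm N q k) (gK N l q (k + 1) * ki l (gK N l q) k) := by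
  ext x y
  rw [Phi_apply, D.dl_F, dF, Matrix.of_apply, map_add, Matrix.add_apply,
    Matrix.add_apply, sg, Matrix.of_apply, sg, Matrix.of_apply, FFm, Matrix.of_apply,
    Matrix.one_apply]
  simp only [pair_eq x y, ← Fin.ext_iff]
  by_cases h1 : x.1 = y.1
  · have h2 : ¬ ((x.1 : ℕ) = k + 1 ∧ (y.1 : ℕ) = k) := by
      rw [h1]; omega
    have h2' : ¬ ((x.1 : ℕ) = k + 1 ∧ (y.1 : ℕ) = k ∧ x.2 = y.2) := fun h => h2 ⟨h.1, h.2.1⟩
    by_cases h3 : x.2 = y.2
    · have h4 : ¬ ((x.2 : ℕ) = k + 1 ∧ (y.2 : ℕ) = k) := by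
        rw [h3]; omega
      simp only [eq_true h1, eq_false h2, eq_false h2', eq_true h3, eq_false h4, if_true, if_false,
        and_false, map_zero, Matrix.zero_apply, add_zero, zero_smul, one_smul,
        D.dl_F, dF, Matrix.of_apply, true_and, and_true]
    · by_cases h4 : (x.2 : ℕ) = k + 1 ∧ (y.2 : ℕ) = k
      · simp only [eq_true h1, eq_false h2, eq_false h2', eq_false h3, eq_true h4, if_true, if_false,
          and_false, map_zero, Matrix.zero_apply, add_zero, zero_smul, zero_add, one_smul,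
          D.dl_F, dF, Matrix.of_apply, true_and, and_true]
      · simp only [eq_true h1, eq_false h2, eq_false h2', eq_false h3, eq_false h4, if_true,
          if_false, and_false, map_zero, Matrix.zero_apply, add_zero, zero_smul,
          D.dl_F, dF, Matrix.of_apply, true_and]
  · by_cases h2 : (x.1 : ℕ) = k + 1 ∧ (y.1 : ℕ) = k
    · obtain ⟨h2a, h2b⟩ := h2
      by_cases h3 : x.2 = y.2
      · simp only [eq_false h1, eq_true h2a, eq_true h2b, eq_true h3, if_true, if_false, and_true,
          false_and, map_zero, Matrix.zero_apply, zero_smul, zero_add,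
          dl_KK hP, Matrix.diagonal_apply, and_self]
      · simp only [eq_false h1, eq_true h2a, eq_true h2b, eq_false h3, if_true, if_false,
          false_and, and_false, map_zero, Matrix.zero_apply, add_zero, zero_smul,
          dl_KK hP, Matrix.diagonal_apply, and_self]
    · have h2' : ¬ ((x.1 : ℕ) = k + 1 ∧ (y.1 : ℕ) = k ∧ x.2 = y.2) := fun h => h2 ⟨h.1, h.2.1⟩
      simp only [eq_false h1, eq_false h2, eq_false h2', if_false,
          false_and, map_zero, Matrix.zero_apply, add_zero, zero_smul]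

theorem D3_K (hq : q ≠ 0) (D : Dl N l q) (m : ℕ) :
    Phi D.dl (D.dl (gK N l q m))
      = sg (Matrix.diagonal fun y : Fin (N + 1) × Fin (N + 1) => q ^ (iz y.1 m + iz y.2 m))
        (gK N l q m) := by
  ext x y
  rw [Phi_apply, D.dl_K, dK, Matrix.of_apply, sg, Matrix.of_apply,
    Matrix.diagonal_apply]
  by_cases h1 : x.1 = y.1
  · rw [if_pos h1, map_smul, Matrix.smul_apply, D.dl_K, dK, Matrix.of_apply]
    by_cases h3 : x.2 = y.2
    · rw [if_pos h3, if_pos (Prod.ext h1 h3), smul_smul]
      congr 1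
      unfold iz
      rw [zpow_add₀ hq]
      split_ifs <;> simp
    · have h4 : ¬ x = y := fun e => h3 (by rw [e])
      rw [if_neg h3, if_neg h4]
      simp
  · rw [if_neg h1, map_zero, Matrix.zero_apply, if_neg (fun e => h1 (by rw [e]))]
    simp

/-- SCD. -/
theorem sSCD : S_SCD := by
  intro N l q hP D a
  have hq := hP.prim.ne_zero (by have := hP.h3; omega)
  refine A_induction (P := fun a => sc (A N l q) (Scm N q) * Phi D.dl (D.dl a)
    = Phi D.dl (D.dl a) * sc (A N l q) (Scm N q)) ?_ ?_ ?_ ?_ ?_ ?_ a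
  · intro c
    rw [AlgHom.commutes, AlgHom.commutes]
    exact (Algebra.commutes c _).symm
  · intro k
    rw [D3_E hq, mul_add, add_mul, sg_comm (comm_E hq N k) 1,
      sg_comm (Scm_diag fun a => pr a k) (gE N l q k)]
  · intro k
    rw [D3_F hP, mul_add, add_mul, sg_comm (comm_F hq N k),
      sg_comm (S := Scm N q) (M1 := 1) (M2 := 1) (by rw [mul_one, one_mul]) (gF N l q k)]
  · intro m
    rw [D3_K hq, sg_comm (Scm_diag fun a => iz a m) (gK N l q m)]
  · intro a b ha hb
    rw [map_add, map_add, mul_add, add_mul, ha, hb]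
  · intro a b ha hb
    rw [map_mul, map_mul, ← mul_assoc, ha, mul_assoc, hb, mul_assoc]

end

end Pool.Agent.Helper62.SQ
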